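import Pool.Agent.TH93.QL.Law
import Pool.Agent.TH733.RG.Triv

/-!
# Common translates of independent random oracles: which quantifiers count

`xor2 A B` is the symmetric difference of the oracles `A` and `B`, the translate of `A` by `B`.
`IsSig A k` is the level `Σ_k` of the polynomial hierarchy relative to `A`, `IsSigPoly A k` is `Σ_k`
with polynomial advice, `SigG g A k` consists of the sets defined by `k` alternating quantifiers over
the strings of length at most `g (|x|)`, and `SigMix g A k` of those defined by `k` polynomially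
bounded quantifiers followed by one more alternating quantifier over the strings of length at most
`g (|x|)`.

* For every sequence `B 0, B 1, ...` of oracles there is one oracle `A` such that, relative to every
  translate of `A` by a `B i`, no quantifiers lead out of `P`.
* Let the `B i` be independent random oracles. Almost surely, for every set `I` of numbers there is
  one oracle `A` such that for all `i`, relative to the translate of `A` by `B i`: if `i` is in `I`,
  then no quantifiers lead out of `P`; if `i` is not in `I`, then the quantifiers over `O(log n)` bits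
  (the sharply bounded ones) are exactly the ones which need not be counted: if `g` is not `O(log n)`
  then at every level `k` already `k + 1` quantifiers over `g (|x|)` bits lead out of `Σ_k`, even with
  polynomial advice.

So every pattern of answers to the question whether the hierarchy collapses is realised by the
translates of one oracle.

Proof. `A` codes the computations relative to its translates by the `B i`, `i ∈ I`, masked by
`B i`, and depends on `I` very slowly (`TH733/RG`); the translates by the other `B i` behave like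
random oracles, for which the law is `TH93/QL`.
-/

set_option autoImplicit false

namespace Pool.Agent.Results.MP_cf4427_lc.IndependentTranslates

open MeasureTheory
open Pool.Agent.H620R2.Gauge Pool.Agent.NPC Pool.Agent.H591R3.PHG
open Pool.Agent.TH93.GL Pool.Agent.TH93.CE Pool.Agent.TH93.QL
open Pool.Agent.H490R3.LH
open Pool.Agent.H622R2 (poly_pairBits polyTime_of_poly_list)
open Pool.Agent.TH678.ETH
open Pool.Agent.H628R3.RO (randomOracle)
open Pool.Agent.TH733.RT (xor2 randomSeq)
open Pool.Agent.TH733.RG (Collapse patterns collapse_all)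

/-- Relative to `A` no quantifiers lead out of `P`: all levels `Σ_k` are contained in `P`, and so are
the classes defined by `k` quantifiers over `g (|x|)` bits, and by `k` polynomially bounded ones
followed by one over `g (|x|)` bits, for every `g` which is computed in unary in polynomial time. -/
def NoneCount (A : Oracle) : Prop :=
  (∀ (k : ℕ) (L : Set (List Bool)), IsSig A k L → IsP A L) ∧
  ∀ g : ℕ → ℕ, NiceT (fun n => n) g → ∀ (k : ℕ) (L : Set (List Bool)),
    (SigG g A k L → IsP A L) ∧ (SigMix g A k L → IsP A L)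

/-- Relative to `A` exactly the quantifiers over `O(log n)` bits need not be counted: for every `g`
which is computed in unary in polynomial time, if `g = O(log n)` then quantifiers over `g (|x|)` bits
do not lead out of `P`, and one more such quantifier does not lead out of `Σ_k`; otherwise, for every
`k`, some set defined by `k + 1` quantifiers over `g (|x|)` bits (and also by `k` polynomially bounded
ones followed by one over `g (|x|)` bits) is not in `Σ_k` with polynomial advice. -/
def LongCount (A : Oracle) : Prop :=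
  ∀ g : ℕ → ℕ, NiceT (fun n => n) g →
    ((∃ c : ℕ, ∀ n, g n ≤ c * (Nat.log 2 n + 1)) →
      ∀ (k : ℕ) (L : Set (List Bool)),
        (SigG g A k L → IsP A L) ∧ (SigMix g A k L → IsSig A k L)) ∧
    ((¬ ∃ c : ℕ, ∀ n, g n ≤ c * (Nat.log 2 n + 1)) →
      ∀ k : ℕ, ∃ L : Set (List Bool), SigG g A (k + 1) L ∧ SigMix g A k L ∧ ¬ IsSigPoly A k L)

theorem isP_of {A : Oracle} (h : Collapse A) {L : Set (List Bool)} (hL : IsPH A L) : IsP A L :=
  isP_of_reduces (h _ hL.isPSPACE)

theorem ex_all {A : Oracle} (h : Collapse A) {R : List Bool → Prop} (hR : IsP A {y | R y})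
    {μ : List Bool → ℕ} (hμ : Poly μ) (T : Polynomial ℕ)
    (hT : ∀ y : List Bool, μ y ≤ T.eval y.length) :
    IsP A {y | ∃ w : List Bool, w.length ≤ μ y ∧ R (pairBits w y)} := by
  obtain ⟨V, hV, hVR⟩ := hR
  refine isP_of h ⟨fun u => V (pairBits (EQAx.cut (μ (unpair u).2) (unpair u).1) (unpair u).2), T, 1,
    hV.precomp (poly_pairBits (EQAx.poly_cut (hμ.comp EQAx.poly_u2) EQAx.poly_u1) EQAx.poly_u2),
    fun y => ?_⟩
  show (∃ w : List Bool, w.length ≤ μ y ∧ R (pairBits w y)) ↔
    ∃ w : List Bool, w.length ≤ T.eval y.length ∧ V (pairBits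
      (EQAx.cut (μ (unpair (pairBits w y)).2) (unpair (pairBits w y)).1)
      (unpair (pairBits w y)).2) = [true]
  simp only [unpair_pairBits]
  constructor
  · rintro ⟨w, hw, hr⟩
    exact ⟨w, hw.trans (hT y), by rw [EQAx.cut_of_le hw]; exact (hVR _).1 hr⟩
  · rintro ⟨w, -, hr⟩
    exact ⟨_, EQAx.cut_le _ w, (hVR _).2 hr⟩

theorem quant_all {A : Oracle} (h : Collapse A) {V : List Bool → List Bool} (hV : IsFP A V)
    {g : ℕ → ℕ} (hg : NiceT (fun n => n) g) :
    ∀ (j i : ℕ) (b : Bool), IsP A {z | Quant (g (EQAx.inner i z).length) V j b z} := by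
  obtain ⟨S, hS⟩ := hg.poly (fun n => le_rfl)
  intro j
  induction j with
  | zero => intro i b; exact ⟨V, hV, fun z => by cases b <;> exact Iff.rfl⟩
  | succ j ih =>
    intro i b
    have hμ : Poly (fun z => g (EQAx.inner i z).length) :=
      (poly_of_nice hg).comp (EQAx.poly_inner i)
    have hT : ∀ y : List Bool, g (EQAx.inner i y).length ≤ S.eval y.length := fun y =>
      (hS _).trans (eval_mono _ (inner_len i y))
    have e1 : ∀ w z : List Bool, EQAx.inner (i + 1) (pairBits w z) = EQAx.inner i z := fun w z => by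
      simp only [EQAx.inner, EQAx.unpair2]
    cases b with
    | true =>
      have h1 := ex_all h (R := fun z => Quant (g (EQAx.inner (i + 1) z).length) V j false z)
        (ih (i + 1) false) hμ _ hT
      simp only [e1] at h1
      exact h1
    | false =>
      have h1 := ex_all h (R := fun z => ¬ Quant (g (EQAx.inner (i + 1) z).length) V j true z)
        (ih (i + 1) true).compl hμ _ hT
      simp only [e1] at h1
      have h2 := h1.compl
      refine (congrArg (IsP A) ?_).mp h2
      ext z
      simp only [Set.mem_compl_iff, Set.mem_ofPred_eq, not_exists, not_and, not_not]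
      exact Iff.rfl

theorem none_of {A : Oracle} (h : Collapse A) : NoneCount A := by
  have h0 : ∀ (k : ℕ) (L : Set (List Bool)), IsSig A k L → IsP A L :=
    fun k L hL => isP_of h hL.isPH
  refine ⟨h0, fun g hg k L => ⟨?_, ?_⟩⟩
  · rintro ⟨V, hV, hL⟩
    obtain ⟨V', hV', h'⟩ := quant_all h hV hg k 0 true
    exact ⟨V', hV', fun x => (hL x).trans (h' x)⟩
  · rintro ⟨V, p, hV, hL⟩
    obtain ⟨V', hV', h'⟩ := quant_all h hV hg 1 k (bot true k)
    exact h0 k L ⟨V', p, hV', fun x => (hL x).trans
      (quantS_iff (V' := V') (fun z => (h' z).symm) k 0 true x (by omega) rfl)⟩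

theorem long_ae : ∀ᵐ A ∂randomOracle, LongCount A := by
  filter_upwards [Pool.Agent.TH93.QL.law] with A hA g hg
  have h := hA g hg
  have e1 : (∃ c : ℕ, ∀ n, g n ≤ c * (Nat.log 2 n + 1)) ↔
      ∀ (k : ℕ) (L : Set (List Bool)), SigG g A k L → IsP A L := h.out 0 1
  have e2 : (∃ c : ℕ, ∀ n, g n ≤ c * (Nat.log 2 n + 1)) ↔
      ∃ k : ℕ, ∀ L : Set (List Bool), SigG g A (k + 1) L → IsSigPoly A k L := h.out 0 2
  have e3 : (∃ c : ℕ, ∀ n, g n ≤ c * (Nat.log 2 n + 1)) ↔
      ∀ (k : ℕ) (L : Set (List Bool)), SigMix g A k L → IsSig A k L := h.out 0 3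
  refine ⟨fun hc k L => ⟨e1.1 hc k L, e3.1 hc k L⟩, fun hc k => ?_⟩
  by_contra h5
  exact hc (e2.2 ⟨k, fun L hL => by_contra fun h6 => h5 ⟨L, hL, hL.mix hg, h6⟩⟩)

theorem niceT_id : NiceT (fun n => n) (fun n => n) := by
  refine ⟨fun z => (unpair z).1, polyTime_of_poly_list EQAx.poly_u1, fun x => ?_⟩
  dsimp only
  rw [unpair_pairBits]

theorem not_small : ¬ ∃ c : ℕ, ∀ n : ℕ, n ≤ c * (Nat.log 2 n + 1) := by
  rintro ⟨c, hc⟩
  have h := hc (2 ^ (2 * c + 2 * c))
  rw [Nat.log_pow (by norm_num)] at h
  have h1 : 2 * c + 1 ≤ 2 ^ (2 * c) := Nat.lt_two_pow_self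
  rw [pow_add] at h
  have h2 : (2 * c + 1) * (2 * c + 1) ≤ 2 ^ (2 * c) * 2 ^ (2 * c) := Nat.mul_le_mul h1 h1
  nlinarith

theorem isSig_of {A : Oracle} {k : ℕ} {L : Set (List Bool)} (h : SigG (fun n => n) A k L) :
    IsSig A k L := by
  obtain ⟨V, hV, hL⟩ := h
  refine ⟨V, Polynomial.X, hV, fun x => ?_⟩
  rw [Polynomial.eval_X]
  exact hL x

/-- **Every pattern.** -/
theorem result :
    (∀ B : ℕ → Oracle, ∃ A : Oracle, ∀ i, NoneCount (xor2 A (B i))) ∧
    ∀ᵐ B ∂randomSeq, ∀ I : Set ℕ, ∃ A : Oracle, ∀ i,
      (i ∈ I → NoneCount (xor2 A (B i))) ∧ (i ∉ I → LongCount (xor2 A (B i))) ∧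
      (i ∈ I ↔ ∃ k : ℕ, ∀ L : Set (List Bool),
        IsSig (xor2 A (B i)) (k + 1) L → IsSigPoly (xor2 A (B i)) k L) := by
  refine ⟨fun B => ?_, ?_⟩
  · obtain ⟨A, hA⟩ := collapse_all B
    exact ⟨A, fun i => none_of (hA i)⟩
  · have h0 : ∀ᵐ A ∂randomOracle, A ∉ {A : Oracle | ¬ LongCount A} := by
      filter_upwards [long_ae] with A hA h
      exact h hA
    filter_upwards [patterns h0] with B hB I
    obtain ⟨A, h1, h2⟩ := hB I
    refine ⟨A, fun i => ?_⟩
    by_cases hi : i ∈ I
    · have h3 := none_of (h1 i hi)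
      exact ⟨fun _ => h3, fun h => absurd hi h,
        iff_of_true hi ⟨0, fun L hL => IsSig.isSigPoly (IsSig.of_isP (h3.1 _ L hL) 0)⟩⟩
    · have h3 : LongCount (xor2 A (B i)) := not_not.1 (h2 i hi)
      refine ⟨fun h => absurd h hi, fun _ => h3, iff_of_false hi ?_⟩
      rintro ⟨k, hk⟩
      obtain ⟨L, h4, -, h5⟩ := (h3 _ niceT_id).2 not_small k
      exact h5 (hk L (isSig_of h4))

end Pool.Agent.Results.MP_cf4427_lc.IndependentTranslates
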