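import Pool.Agent.TH686.BA.Main
import Pool.Agent.TH686.BA.Nat

/-!
# Quantifiers over linearly occurring variables do not count in bounded arithmetic

Consider bounded formulas in Buss's language `0, S, +, ·, ⌊x/2⌋, |x|, #, ≤`. If multiplication is
applied only to terms in which the variables bound by (not sharply) bounded quantifiers occur only
inside `|·|` and `#` (for example, if there is no multiplication at all, or only multiplication of
free variables and of lengths), then the formula is equivalent in `T^1_2` to a `Σᵇ₁` and to a `Πᵇ₁`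
formula, no matter how many alternations of bounded quantifiers it has, and `T^1_2` proves
induction for it. More generally, for `i ≥ 1`, such formulas may be used in place of the sharply
bounded formulas in the definition of `Σᵇᵢ` without changing the classes in `T^1_2`.

So for these formulas the hierarchy of formula classes (Q2) collapses to `Σᵇ₁ ∩ Πᵇ₁` and their
induction axioms (Q1) are all provable in `T^1_2`.

Proof. The values of a linear variable at which the truth value of the formula may change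
(critical points) are solutions `z` of `c z + U = V` with `c` a standard number and `U, V` depending
on free variables, on powers of two `2 ^ q` and on small elements (at most the length of some
element), over which sharply bounded quantifiers range. By the maximum principle for `Σᵇ₁` sets
there is a largest critical point below a given element, and so a quantifier over a linear variable
can be replaced by sharply bounded quantifiers and finite disjunctions.
-/

set_option autoImplicit false

namespace Pool.Agent.Results.MP_cf4427_lc.LinearQuantifiers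

open Pool.Agent.TH686.BA

theorem lvl_mono {c : Bool} {i n : ℕ} {φ : Fm n} (h : Lvl c 1 φ) (b : Bool) :
    Lvl b (1 + (i + 1)) φ := by
  induction i generalizing b with
  | zero => exact Lvl.up h
  | succ i ih => exact Lvl.up (ih true)

theorem isModelT_one {M : Str} {i : ℕ} (h : M.IsModelT (i + 1)) : M.IsModelT 1 := by
  refine ⟨h.basic, fun n φ hφ => ?_⟩
  rcases i with _ | i
  · exact h.ind n φ hφ
  · have h1 : 1 + (i + 1) = i + 1 + 1 := by omega
    exact h.ind n φ (h1 ▸ lvl_mono hφ true)

theorem lvlL_equiv {b : Bool} {i n : ℕ} {φ : Fm n} (h : LvlL b i φ) : ∃ ψ : Fm n, Lvl b i ψ ∧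
    ∀ M : Str, M.IsModelT 1 → ∀ v : Fin n → M.carrier, (φ.eval M v ↔ ψ.eval M v) := by
  induction h with
  | @fit b i n φ h =>
    obtain ⟨⟨χ, h1, h2⟩, χ', h3, h4⟩ := φ.del h
    rcases i with _ | i
    · cases b with
      | true => exact ⟨χ, h1, fun M hM v => (h2 ⟨M, hM⟩ v).symm⟩
      | false =>
        refine ⟨.not χ', Lvl.not h3, fun M hM v => ?_⟩
        simp only [Fm.eval]
        rw [h4 ⟨M, hM⟩ v, not_not]
    · have h5 : 1 + (i + 1) = i + 1 + 1 := by omega
      exact ⟨χ, h5 ▸ lvl_mono h1 b, fun M hM v => (h2 ⟨M, hM⟩ v).symm⟩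
  | not _ ih =>
    obtain ⟨ψ, h1, h2⟩ := ih
    exact ⟨.not ψ, Lvl.not h1, fun M hM v => by simp only [Fm.eval, h2 M hM v]⟩
  | and _ _ ih1 ih2 =>
    obtain ⟨ψ, h1, h2⟩ := ih1
    obtain ⟨χ, h3, h4⟩ := ih2
    exact ⟨.and ψ χ, Lvl.and h1 h3, fun M hM v => by simp only [Fm.eval, h2 M hM v, h4 M hM v]⟩
  | or _ _ ih1 ih2 =>
    obtain ⟨ψ, h1, h2⟩ := ih1
    obtain ⟨χ, h3, h4⟩ := ih2
    exact ⟨.or ψ χ, Lvl.or h1 h3, fun M hM v => by simp only [Fm.eval, h2 M hM v, h4 M hM v]⟩
  | sall t _ ih =>
    obtain ⟨ψ, h1, h2⟩ := ih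
    exact ⟨.all (.len t) ψ, Lvl.sall t h1, fun M hM v => by simp only [Fm.eval, h2 M hM]⟩
  | sex t _ ih =>
    obtain ⟨ψ, h1, h2⟩ := ih
    exact ⟨.ex (.len t) ψ, Lvl.sex t h1, fun M hM v => by simp only [Fm.eval, h2 M hM]⟩
  | all t _ ih =>
    obtain ⟨ψ, h1, h2⟩ := ih
    exact ⟨.all t ψ, Lvl.all t h1, fun M hM v => by simp only [Fm.eval, h2 M hM]⟩
  | ex t _ ih =>
    obtain ⟨ψ, h1, h2⟩ := ih
    exact ⟨.ex t ψ, Lvl.ex t h1, fun M hM v => by simp only [Fm.eval, h2 M hM]⟩
  | up _ ih =>
    obtain ⟨ψ, h1, h2⟩ := ih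
    exact ⟨ψ, Lvl.up h1, h2⟩

/-- (1) Every bounded formula that is linear in its quantified variables is equivalent in `T^1_2`
(in all models) to a `Σᵇ₁` formula and to a `Πᵇ₁` formula. (2) For `i ≥ 1`, every formula in the
class `Σᵇᵢ` (or `Πᵇᵢ`) built over these formulas is equivalent in `T^1_2` to a formula in `Σᵇᵢ` (or
`Πᵇᵢ`). (3) For `i ≥ 1`, `T^i_2` proves induction for all formulas in the class `Σᵇᵢ` built over
these formulas; so `T^1_2` proves induction for all bounded formulas linear in their quantified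
variables. (4) The natural numbers are a model of all `T^i_2`. -/
theorem result :
    (∀ (n : ℕ) (φ : Fm n), φ.Fit (fun _ => False) →
      ∃ σ π : Fm n, Lvl true 1 σ ∧ Lvl false 1 π ∧
        ∀ M : Str, M.IsModelT 1 → ∀ v : Fin n → M.carrier,
          (φ.eval M v ↔ σ.eval M v) ∧ (φ.eval M v ↔ π.eval M v)) ∧
    (∀ (b : Bool) (i n : ℕ) (φ : Fm n), LvlL b i φ → ∃ ψ : Fm n, Lvl b i ψ ∧
      ∀ M : Str, M.IsModelT 1 → ∀ v : Fin n → M.carrier, (φ.eval M v ↔ ψ.eval M v)) ∧
    (∀ (i n : ℕ) (φ : Fm (n + 1)), LvlL true i φ → ∀ M : Str, M.IsModelT i → M.Ind φ) ∧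
    (∀ i : ℕ, natStr.IsModelT i) := by
  refine ⟨fun n φ h => ?_, fun b i n φ h => lvlL_equiv h, fun i n φ h M hM => ?_,
    natStr_isModelT⟩
  · obtain ⟨σ, h1, h2⟩ := lvlL_equiv (LvlL.fit (b := true) (i := 0) h)
    obtain ⟨π, h3, h4⟩ := lvlL_equiv (LvlL.fit (b := false) (i := 0) h)
    exact ⟨σ, π, h1, h3, fun M hM v => ⟨h2 M hM v, h4 M hM v⟩⟩
  · have hM1 : M.IsModelT 1 := by
      rcases i with _ | i
      · exfalso
        have hz : ∀ {b : Bool} {i n : ℕ} {φ : Fm n}, LvlL b i φ → i ≠ 0 := by
          intro b i n φ h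
          induction h <;> first | assumption | exact Nat.succ_ne_zero _
        exact hz h rfl
      · exact isModelT_one hM
    obtain ⟨ψ, h1, h2⟩ := lvlL_equiv h
    intro v h0 hs x
    rw [h2 M hM1]
    refine hM.ind n ψ h1 v ?_ ?_ x
    · rw [← h2 M hM1]; exact h0
    · intro y hy
      rw [← h2 M hM1] at hy ⊢
      exact hs y hy

end Pool.Agent.Results.MP_cf4427_lc.LinearQuantifiers
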