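import Pool.Agent.TH93.QL.Law

/-!
# Short quantifiers relative to a random oracle

In the hierarchy `Σᵇ_n` of bounded formulas the sharply bounded quantifiers (over `O(log n)` bits)
are not counted. How long must the quantified strings be in order to count?

`SigG g A k L` says that `L` is defined by `k` alternating quantifiers over the strings of length at
most `g (|x|)` in front of a predicate computed in polynomial time relative to `A`. `SigMix g A k L`
says that `L` is defined by `k` alternating quantifiers over strings of polynomial length (the first
one existential) followed by one more quantifier over the strings of length at most `g (|x|)`.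
`IsSig A k` is the level `Σ_k` of the polynomial hierarchy relative to `A`, and `IsSigPoly A k` is
`Σ_k` with polynomial advice. `NiceT (fun n => n) g` says that `g (n)` is computed in unary in
polynomial time.

Theorem. Relative to almost every oracle `A`, for all such `g`, the following are equivalent:

1. `g (n) = O(log n)`;
2. for all `k`, everything defined by `k` quantifiers over `g (n)` bits is in `P`;
3. for some `k`, everything defined by `k + 1` quantifiers over `g (n)` bits is in `Σ_k` with
   polynomial advice;
4. for all `k`, one more quantifier over `g (n)` bits after those of `Σ_k` does not lead out of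
   `Σ_k`;
5. for some `k`, it does not lead out of `Σ_k` with polynomial advice.

So relative to a random oracle, the hierarchy given by quantifiers over `g (n)` bits either is
contained in `P`, in the sharply bounded case, or does not collapse at any level.
-/

set_option autoImplicit false

namespace Pool.Agent.Results.MP_cf4427_lc.QuantifierLength

open MeasureTheory Pool.Agent.H620R2.Gauge Pool.Agent.H591R3.PHG Pool.Agent.TH93.GL
open Pool.Agent.TH93.QL
open Pool.Agent.H628R3.RO (randomOracle)

/-- **Quantifiers over short strings relative to a random oracle.** -/
theorem result : ∀ᵐ A ∂randomOracle, ∀ g : ℕ → ℕ, NiceT (fun n => n) g → List.TFAE [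
    ∃ c : ℕ, ∀ n, g n ≤ c * (Nat.log 2 n + 1),
    ∀ (k : ℕ) (L : Set (List Bool)), SigG g A k L → IsP A L,
    ∃ k : ℕ, ∀ L : Set (List Bool), SigG g A (k + 1) L → IsSigPoly A k L,
    ∀ (k : ℕ) (L : Set (List Bool)), SigMix g A k L → IsSig A k L,
    ∃ k : ℕ, ∀ L : Set (List Bool), SigMix g A k L → IsSigPoly A k L] :=
  law

end Pool.Agent.Results.MP_cf4427_lc.QuantifierLength
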